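import Pool.Agent.H50.LV.Targets

/-!
# Row SMA of lve_modules: a sum over integers near a point (helper2)
-/

set_option autoImplicit false

open Finset MeasureTheory

namespace Pool.Agent.H2.LVE

open Pool.Agent.H24.CL Pool.Agent.H24.LV Pool.Agent.H50.LV

lemma sum_inv_natAbs (s : Finset ℤ) (m : ℤ) (n : ℕ) (hn : s.card ≤ n) (hm : m ∉ s) :
    ∑ j ∈ s, (1 : ℝ) / ((j - m).natAbs : ℝ) ≤ 3 + 2 * Real.log n := by
  classical
  rcases Nat.eq_zero_or_pos n with h0 | h0
  · have : s = ∅ := by
      rw [← card_eq_zero]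
      omega
    rw [this, h0]
    simp
  have hn0 : (0 : ℝ) < n := by exact_mod_cast h0
  have hpos : ∀ j ∈ s, 1 ≤ (j - m).natAbs := by
    intro j hj
    have : j ≠ m := fun h => hm (h ▸ hj)
    omega
  rw [← sum_filter_add_sum_filter_not s (fun j => (j - m).natAbs ≤ n)]
  have h1 : ∑ j ∈ s.filter (fun j => (j - m).natAbs ≤ n), (1 : ℝ) / ((j - m).natAbs : ℝ) ≤
      2 + 2 * Real.log n := by
    have hmaps : ∀ j ∈ s.filter (fun j => (j - m).natAbs ≤ n), (j - m).natAbs ∈ Icc 1 n := by
      intro j hj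
      rw [mem_filter] at hj
      exact mem_Icc.2 ⟨hpos j hj.1, hj.2⟩
    rw [← sum_fiberwise_of_maps_to hmaps]
    have h2 : ∀ k ∈ Icc 1 n, ∑ j ∈ (s.filter (fun j => (j - m).natAbs ≤ n)).filter
        (fun j => (j - m).natAbs = k), (1 : ℝ) / ((j - m).natAbs : ℝ) ≤ 2 * ((k : ℝ))⁻¹ := by
      intro k hk
      have h3 : ∑ j ∈ (s.filter (fun j => (j - m).natAbs ≤ n)).filter
          (fun j => (j - m).natAbs = k), (1 : ℝ) / ((j - m).natAbs : ℝ) =
          ∑ j ∈ (s.filter (fun j => (j - m).natAbs ≤ n)).filter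
          (fun j => (j - m).natAbs = k), ((k : ℝ))⁻¹ := by
        refine sum_congr rfl ?_
        intro j hj
        rw [mem_filter] at hj
        rw [hj.2, one_div]
      rw [h3, sum_const, nsmul_eq_mul]
      apply mul_le_mul_of_nonneg_right _ (by positivity)
      have h4 : (s.filter (fun j => (j - m).natAbs ≤ n)).filter (fun j => (j - m).natAbs = k) ⊆
          {m + k, m - k} := by
        intro j hj
        rw [mem_filter] at hj
        rw [mem_insert, mem_singleton]
        have := hj.2
        omega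
      have h5 := (card_le_card h4).trans card_le_two
      exact_mod_cast h5
    refine (sum_le_sum h2).trans ?_
    rw [← mul_sum]
    have h6 := harmonic_le_one_add_log n
    rw [harmonic_eq_sum_Icc] at h6
    push_cast at h6
    linarith
  have h2 : ∑ j ∈ s.filter (fun j => ¬ (j - m).natAbs ≤ n), (1 : ℝ) / ((j - m).natAbs : ℝ) ≤
      1 := by
    have h3 : ∀ j ∈ s.filter (fun j => ¬ (j - m).natAbs ≤ n),
        (1 : ℝ) / ((j - m).natAbs : ℝ) ≤ 1 / (n : ℝ) := by
      intro j hj
      rw [mem_filter] at hj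
      apply one_div_le_one_div_of_le hn0
      have := hj.2
      have h4 : n ≤ (j - m).natAbs := by omega
      exact_mod_cast h4
    refine (sum_le_sum h3).trans ?_
    rw [sum_const, nsmul_eq_mul]
    have h4 : ((s.filter (fun j => ¬ (j - m).natAbs ≤ n)).card : ℝ) ≤ n := by
      exact_mod_cast (card_filter_le _ _).trans hn
    rw [mul_one_div, div_le_one hn0]
    exact h4
  linarith

theorem pf_SMA : T_SMA := by
  classical
  intro A B θ s hA hB
  obtain ⟨m, hm⟩ : ∃ m : ℤ, m = -round θ := ⟨_, rfl⟩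
  have hθ : |θ + m| = ‖(θ : UnitAddCircle)‖ := by
    rw [UnitAddCircle.norm_eq, hm]
    push_cast
    ring_nf
  have hhalf : |θ + m| ≤ 1 / 2 := by
    have h1 : θ + m = θ - round θ := by
      rw [hm]
      push_cast
      ring
    rw [h1]
    exact abs_sub_round θ
  have hterm : ∀ j ∈ s.erase m, A / (1 + B * |θ + j|) ≤
      2 * (A / B) * (1 / ((j - m).natAbs : ℝ)) := by
    intro j hj
    have hne : j ≠ m := (mem_erase.1 hj).1
    have h1 : 1 ≤ (j - m).natAbs := by omega
    have h2 : (1 : ℝ) ≤ ((j - m).natAbs : ℝ) := by exact_mod_cast h1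
    have h3 : ((j - m).natAbs : ℝ) = |(j : ℝ) - m| := by
      rw [Nat.cast_natAbs]
      push_cast
      rfl
    have h4 : ((j - m).natAbs : ℝ) / 2 ≤ |θ + j| := by
      have h5 : |(j : ℝ) - m| ≤ |θ + j| + |θ + m| := by
        have h6 : (j : ℝ) - m = (θ + j) - (θ + m) := by ring
        rw [h6]
        exact abs_sub _ _
      rw [← h3] at h5
      linarith
    have h7 : A / (1 + B * |θ + j|) ≤ A / (B * (((j - m).natAbs : ℝ) / 2)) := by
      apply div_le_div_of_nonneg_left hA.le (by positivity)
      have := mul_le_mul_of_nonneg_left h4 hB.le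
      linarith
    refine h7.trans (le_of_eq ?_)
    field_simp
  have hs : ∑ j ∈ s.erase m, A / (1 + B * |θ + j|) ≤
      8 * (A / B) * (1 + Real.log (s.card + 1)) := by
    refine (sum_le_sum hterm).trans ?_
    rw [← mul_sum]
    have h1 := sum_inv_natAbs (s.erase m) m s.card (card_le_card (erase_subset _ _))
      (notMem_erase m s)
    have hAB : 0 ≤ A / B := by positivity
    have h2 : Real.log s.card ≤ Real.log (s.card + 1) := by
      rcases Nat.eq_zero_or_pos s.card with h | h
      · rw [h]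
        simp
      · apply Real.log_le_log
        · exact_mod_cast h
        · linarith
    have h3 : 0 ≤ Real.log (s.card + 1) := Real.log_nonneg (by
      have : (0 : ℝ) ≤ s.card := Nat.cast_nonneg _
      linarith)
    have h4 : ∑ j ∈ s.erase m, (1 : ℝ) / ((j - m).natAbs : ℝ) ≤
        4 * (1 + Real.log (s.card + 1)) := by linarith
    calc 2 * (A / B) * ∑ j ∈ s.erase m, (1 : ℝ) / ((j - m).natAbs : ℝ)
        ≤ 2 * (A / B) * (4 * (1 + Real.log (s.card + 1))) :=
          mul_le_mul_of_nonneg_left h4 (by positivity)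
      _ = 8 * (A / B) * (1 + Real.log (s.card + 1)) := by ring
  by_cases hms : m ∈ s
  · rw [← add_sum_erase s _ hms, hθ]
    linarith
  · rw [erase_eq_of_notMem hms] at hs
    have h5 : 0 ≤ A / (1 + B * ‖(θ : UnitAddCircle)‖) := by positivity
    linarith

end Pool.Agent.H2.LVE
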